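import Pool.Agent.Y731.FG.Stm
import Pool.Agent.TH551.HA.Jr1

/-!
# Linear algebra of a normal crossings divisor over a ring of integral elements
-/

set_option autoImplicit false
set_option linter.unusedSectionVars false
set_option linter.unusedVariables false

namespace Pool.Agent.Y785.FG

open MvPolynomial Pool.Agent.Y731.FG
open Pool.Agent.TH551.HA.Ci (Cov GM exchange)

variable {F : Type} [Field F] {n : ℕ}

section one

variable {t N : ℕ} (f : Fin t → MvPolynomial (Fin n) F) (D : Fin N → MvPolynomial (Fin n) F)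

/-- the gradients as polynomials -/
noncomputable def grad : Fin t ⊕ Fin N → Fin n → MvPolynomial (Fin n) F :=
  Sum.elim (fun j c => pderiv c (f j)) (fun i c => pderiv c (D i))

/-- the gradients at a point -/
noncomputable def gradAt {K : Type} [CommRing K] [Algebra F K] (x : Fin n → K) :
    Fin t ⊕ Fin N → Fin n → K :=
  Sum.elim (fun j c => aeval x (pderiv c (f j))) (fun i c => aeval x (pderiv c (D i)))

lemma aeval_GM {K : Type} [CommRing K] [Algebra F K] (x : Fin n → K)
    (φ : Fin n → Option (Fin t ⊕ Fin N)) :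
    aeval x (GM (grad f D) φ).det = (GM (gradAt f D x) φ).det := by
  rw [AlgHom.map_det]
  congr 1
  ext c' c
  simp only [AlgHom.mapMatrix_apply, Matrix.map_apply, GM, Matrix.of_apply]
  rcases φ c with _ | (i | i)
  · simp only [Option.elim_none]
    split_ifs <;> simp
  · simp [grad, gradAt]
  · simp [grad, gradAt]

/-- the indices of the equations and of the components in `I` -/
def EI (t : ℕ) {N : ℕ} (I : Finset (Fin N)) : Finset (Fin t ⊕ Fin N) :=
  Finset.univ.disjSum I

variable {K : Type} [Field K] [Algebra F K]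

lemma aeval_mem (A : Subalgebra F K) (x : Fin n → K) (hx : ∀ c, x c ∈ A)
    (p : MvPolynomial (Fin n) F) : aeval x p ∈ A := by
  induction p using MvPolynomial.induction_on with
  | C a => rw [aeval_C]; exact A.algebraMap_mem a
  | add p q hp hq => rw [map_add]; exact A.add_mem hp hq
  | mul_X p i hp => rw [map_mul, aeval_X]; exact A.mul_mem hp (hx i)

/-- the polynomials whose product with the determinant is divisible -/
def bI (A : Subalgebra F K) (x : Fin n → K) (hx : ∀ c, x c ∈ A) (z W Q : K)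
    (hz : z ∈ A) : Ideal (MvPolynomial (Fin n) F) where
  carrier := {f | ∃ (m : ℕ), ∃ ω ∈ A, z ^ m * W * aeval x f = Q * ω}
  zero_mem' := ⟨0, 0, A.zero_mem, by simp⟩
  add_mem' := by
    rintro f g ⟨m, ω, hω, h⟩ ⟨m', ω', hω', h'⟩
    refine ⟨m + m', z ^ m' * ω + z ^ m * ω', A.add_mem (A.mul_mem (A.pow_mem hz _) hω)
      (A.mul_mem (A.pow_mem hz _) hω'), ?_⟩
    rw [map_add, pow_add]
    linear_combination z ^ m' * h + z ^ m * h'
  smul_mem' := by
    rintro g f ⟨m, ω, hω, h⟩
    refine ⟨m, aeval x g * ω, A.mul_mem (aeval_mem A x hx g) hω, ?_⟩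
    rw [smul_eq_mul, map_mul]
    linear_combination aeval x g * h

/-- the weights of the columns -/
def colW (P : Fin N → K) (a : Option (Fin t ⊕ Fin N)) : K :=
  a.elim 1 (Sum.elim (fun _ => 1) P)

lemma cov_prod (φ : Fin n → Option (Fin t ⊕ Fin N)) (I : Finset (Fin N))
    (h : Cov φ (EI t I : Set (Fin t ⊕ Fin N))) (P : Fin N → K) :
    ∏ c, colW P (φ c) = ∏ i ∈ I, P i := by
  classical
  have h1 : ∀ c, colW P (φ c) = ∏ i ∈ I, (if φ c = some (Sum.inr i) then P i else 1) := by
    intro c
    rcases hc : φ c with _ | (j | i)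
    · simp [colW]
    · simp [colW]
    · have hi : i ∈ I := by
        have h2 : Sum.inr i ∈ (EI t I : Set (Fin t ⊕ Fin N)) := (h.2 _).2 ⟨c, hc⟩
        simpa [EI] using h2
      simp only [colW, Option.elim_some, Sum.elim_inr, Option.some.injEq, Sum.inr.injEq]
      rw [Finset.prod_ite_eq, if_pos hi]
  rw [Finset.prod_congr rfl fun c _ => h1 c, Finset.prod_comm]
  refine Finset.prod_congr rfl fun i hi => ?_
  obtain ⟨c, hc⟩ := (h.2 (Sum.inr i)).1 (by simp [EI, hi])
  rw [Finset.prod_eq_single c]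
  · rw [if_pos hc]
  · intro c' _ hc'
    rw [if_neg]
    intro h2
    exact hc' (h.1 _ _ _ h2 hc)
  · intro h2
    exact absurd (Finset.mem_univ _) h2

end one

section abs

variable {g s N w : ℕ} (f : Fin g → MvPolynomial (Fin n) F)
  (D : Fin N → Fin w → MvPolynomial (Fin n) F) {K : Type} [Field K] [Algebra F K]

/-- the Nullstellensatz for a divisor with normal crossings -/
theorem null_n (hNC : SNCF f D s) (I : Finset (Fin N)) (c : Fin n) :
    ∃ m, (X c : MvPolynomial (Fin n) F) ^ m ∈
      Ideal.span ((Set.range f ∪ {h | ∃ i ∈ I, ∃ j, h = D i j}) ∪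
        {h | ∃ (T : Fin s → Fin g) (J : Fin N → Fin w) (φ : Fin n → Option (Fin s ⊕ Fin N)),
          Cov φ (EI s I : Set (Fin s ⊕ Fin N)) ∧
          h = (GM (grad (fun a => f (T a)) (fun i => D i (J i))) φ).det}) := by
  classical
  set J' := Ideal.span ((Set.range f ∪ {h | ∃ i ∈ I, ∃ j, h = D i j}) ∪
        {h | ∃ (T : Fin s → Fin g) (J : Fin N → Fin w) (φ : Fin n → Option (Fin s ⊕ Fin N)),
          Cov φ (EI s I : Set (Fin s ⊕ Fin N)) ∧
          h = (GM (grad (fun a => f (T a)) (fun i => D i (J i))) φ).det}) with hJ'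
  have h1 : (X c : MvPolynomial (Fin n) F) ∈ J'.radical := by
    rw [← vanishingIdeal_zeroLocus_eq_radical (K := (AlgebraicClosure F)), mem_vanishingIdeal_iff]
    intro z hz
    rw [mem_zeroLocus_iff] at hz
    rw [aeval_X]
    by_contra hzc
    have hz0 : z ≠ 0 := fun h => hzc (by rw [h]; rfl)
    have hfz : ∀ j, aeval z (f j) = 0 := fun j =>
      hz _ (Ideal.subset_span (Or.inl (Or.inl ⟨j, rfl⟩)))
    have hFz : ∀ i ∈ I, ∀ j, aeval z (D i j) = 0 := fun i hi j =>
      hz _ (Ideal.subset_span (Or.inl (Or.inr ⟨i, hi, j, rfl⟩)))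
    obtain ⟨T, J, hli⟩ := hNC z hz0 hfz
    obtain ⟨φ, hφ, hdet⟩ := exchange (gradAt (fun a => f (T a)) (fun i => D i (J i)) z) (EI s I) (by
      intro g hg h0
      rw [Fintype.linearIndependent_iff] at hli
      have hgI : ∀ i, i ∉ I → g (Sum.inr i) = 0 := fun i hi => hg _ (by simp [EI, hi])
      have h1 := hli (Sum.elim (fun j => g (Sum.inl j)) (fun i => g (Sum.inr i.1))) (by
        funext c
        rw [Fintype.sum_sum_type]
        simp only [Sum.elim_inl, Sum.elim_inr, Pi.add_apply, Finset.sum_apply, Pi.smul_apply,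
          smul_eq_mul, Pi.zero_apply]
        have h5 := h0 c
        rw [Fintype.sum_sum_type] at h5
        simp only [gradAt, Sum.elim_inl, Sum.elim_inr] at h5
        have h2 := Fintype.sum_subtype_add_sum_subtype (fun i => ∀ j, aeval z (D i j) = 0)
          (fun i => g (Sum.inr i) * aeval z (pderiv c (D i (J i))))
        have h3 : ∑ i : {i : Fin N // ¬ ∀ j, aeval z (D i j) = 0},
            g (Sum.inr i.1) * aeval z (pderiv c (D i (J i))) = 0 :=
          Finset.sum_eq_zero fun i _ => by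
            have h4 : g (Sum.inr i.1) = 0 := hgI i.1 fun h5 => i.2 (hFz i.1 h5)
            rw [h4, zero_mul]
        rw [h3, add_zero] at h2
        rw [h2]
        exact h5)
      intro i
      rcases i with j | i
      · exact h1 (Sum.inl j)
      · by_cases hi : ∀ j, aeval z (D i j) = 0
        · exact h1 (Sum.inr ⟨i, hi⟩)
        · exact hgI i fun h5 => hi (hFz i h5))
    apply hdet
    rw [← aeval_GM]
    exact hz _ (Ideal.subset_span (Or.inr ⟨T, J, φ, hφ, rfl⟩))
  exact h1


/-- **the determinant of the table is divisible** -/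
theorem absC (A : Subalgebra F K) (hNC : SNCF f D s) (x : Fin n → K) (hx : ∀ c, x c ∈ A)
    (hfx : ∀ j, aeval x (f j) = 0) (P : Fin N → K) (B : Matrix (Fin n) (Fin n) K)
    (ν : Fin s → Fin n) (hν : Function.Injective ν)
    (hBA : ∀ ρ c, B ρ c ∈ A)
    (hF : ∀ i j, ∃ ω ∈ A, aeval x (D i j) = P i * ω)
    (hB0 : ∀ ρ, (∀ j, ρ ≠ ν j) → ∀ j, ∑ c, B ρ c * aeval x (pderiv c (f j)) = 0)
    (hB : ∀ ρ, (∀ j, ρ ≠ ν j) → ∀ i j,
      ∃ ω ∈ A, ∑ c, B ρ c * aeval x (pderiv c (D i j)) = P i * ω)
    (c : Fin n) : ∃ (m : ℕ), ∃ ω ∈ A, x c ^ m * B.det = (∏ i, P i) * ω := by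
  classical
  -- the determinants
  have hdet : ∀ (T : Fin s → Fin g) (J : Fin N → Fin w) (I : Finset (Fin N)) φ,
      Cov φ (EI s I : Set (Fin s ⊕ Fin N)) →
      ∃ ω ∈ A, (B * GM (gradAt (fun a => f (T a)) (fun i => D i (J i)) x) φ).det =
        (∏ i ∈ I, P i) * ω := by
    intro T J I φ hφ
    set M := B * GM (gradAt (fun a => f (T a)) (fun i => D i (J i)) x) φ with hM
    have hM0 : ∀ r c, φ c = none → M r c = B r c := by
      intro r c hc
      rw [hM, Matrix.mul_apply]
      simp [GM, hc]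
    have hM1 : ∀ r c j, φ c = some (Sum.inl j) → M r c =
        ∑ c', B r c' * aeval x (pderiv c' (f (T j))) := by
      intro r c j hc
      rw [hM, Matrix.mul_apply]
      simp [GM, hc, gradAt]
    have hM2 : ∀ r c i, φ c = some (Sum.inr i) → M r c =
        ∑ c', B r c' * aeval x (pderiv c' (D i (J i))) := by
      intro r c i hc
      rw [hM, Matrix.mul_apply]
      simp [GM, hc, gradAt]
    have hcc : ∀ j : Fin s, ∃ c, φ c = some (Sum.inl j) := fun j =>
      (hφ.2 (Sum.inl j)).1 (by simp [EI])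
    choose cc hcc using hcc
    have hccinj : Function.Injective cc := by
      intro j j' h
      have h1 := hcc j
      rw [h, hcc j'] at h1
      exact (Sum.inl_injective (Option.some.inj h1)).symm
    have hterm : ∀ σ : Equiv.Perm (Fin n), ∃ ω ∈ A,
        ∏ c, M (σ c) c = (∏ c, colW P (φ c)) * ω := by
      intro σ
      by_cases hgood : ∀ j, ∃ j', σ (cc j) = ν j'
      · choose κ hκ using hgood
        have hκinj : Function.Injective κ := by
          intro j j' h
          have h1 := hκ j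
          rw [h, ← hκ j'] at h1
          exact hccinj (σ.injective h1)
        have hκsurj : Function.Surjective κ := Finite.injective_iff_surjective.1 hκinj
        have hnr : ∀ c, (∀ j, φ c ≠ some (Sum.inl j)) → ∀ j, σ c ≠ ν j := by
          intro c h1 j h2
          obtain ⟨j', rfl⟩ := hκsurj j
          rw [← hκ j'] at h2
          have h3 := σ.injective h2
          exact h1 j' (by rw [h3]; exact hcc j')
        have hent : ∀ c, ∃ ω ∈ A, M (σ c) c = colW P (φ c) * ω := by
          intro c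
          rcases hc : φ c with _ | (j | i)
          · refine ⟨B (σ c) c, hBA _ _, ?_⟩
            rw [hM0 _ _ hc]
            simp [colW]
          · refine ⟨M (σ c) c, ?_, by simp [colW]⟩
            rw [hM1 _ _ _ hc]
            exact A.sum_mem fun c' _ => A.mul_mem (hBA _ _) (aeval_mem A x hx _)
          · obtain ⟨ω, hω, h5⟩ := hB (σ c) (hnr c fun j => by simp [hc]) i (J i)
            refine ⟨ω, hω, ?_⟩
            rw [hM2 _ _ _ hc, h5]
            simp [colW]
        choose ω hω h5 using hent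
        exact ⟨∏ c, ω c, A.prod_mem fun c _ => hω c, by
          rw [← Finset.prod_mul_distrib]
          exact Finset.prod_congr rfl fun c _ => h5 c⟩
      · push Not at hgood
        obtain ⟨j, hcj⟩ := hgood
        refine ⟨0, A.zero_mem, ?_⟩
        rw [mul_zero]
        refine Finset.prod_eq_zero (Finset.mem_univ (cc j)) ?_
        rw [hM1 _ _ _ (hcc j)]
        exact hB0 _ hcj (T j)
    choose ω hω h1 using hterm
    refine ⟨∑ σ : Equiv.Perm (Fin n), ((Equiv.Perm.sign σ : ℤ) : K) * ω σ, ?_, ?_⟩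
    · exact A.sum_mem fun σ _ => A.mul_mem (intCast_mem A _) (hω σ)
    · rw [Matrix.det_apply', Finset.mul_sum]
      refine Finset.sum_congr rfl fun σ _ => ?_
      rw [h1 σ, cov_prod φ I hφ P]
      ring
  suffices H : ∀ I : Finset (Fin N), ∃ (m : ℕ), ∃ ω ∈ A,
      x c ^ m * B.det = (∏ i ∈ I, P i) * ω from H Finset.univ
  intro I
  induction I using Finset.strongInduction with
  | H I ih =>
  obtain ⟨m, hm⟩ := null_n f D hNC I c
  have hle : Ideal.span ((Set.range f ∪ {h | ∃ i ∈ I, ∃ j, h = D i j}) ∪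
        {h | ∃ (T : Fin s → Fin g) (J : Fin N → Fin w) (φ : Fin n → Option (Fin s ⊕ Fin N)),
          Cov φ (EI s I : Set (Fin s ⊕ Fin N)) ∧
          h = (GM (grad (fun a => f (T a)) (fun i => D i (J i))) φ).det}) ≤
      bI A x hx (x c) B.det (∏ i ∈ I, P i) (hx c) := by
    rw [Ideal.span_le]
    rintro h ((⟨j, rfl⟩ | ⟨i, hi, j, rfl⟩) | ⟨T, J, φ, hφ, rfl⟩)
    · exact ⟨0, 0, A.zero_mem, by rw [hfx, mul_zero, mul_zero]⟩
    · obtain ⟨m', ω, hω, h1⟩ := ih (I.erase i) (Finset.erase_ssubset hi)
      obtain ⟨ω', hω', h2⟩ := hF i j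
      refine ⟨m', ω * ω', A.mul_mem hω hω', ?_⟩
      rw [h1, h2, ← Finset.mul_prod_erase I P hi]
      ring
    · obtain ⟨ω, hω, h1⟩ := hdet T J I φ hφ
      refine ⟨0, ω, hω, ?_⟩
      rw [pow_zero, one_mul, aeval_GM, ← Matrix.det_mul, h1]
  obtain ⟨m', ω, hω, h⟩ := hle hm
  refine ⟨m' + m, ω, hω, ?_⟩
  rw [map_pow, aeval_X] at h
  rw [← h, pow_add]
  ring

end abs

section tab

variable {K : Type} [Field K]

/-- the table of tangent vectors and of unit vectors for the complement of a set of coordinates -/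
noncomputable def tab {k t : ℕ} {n : ℕ} (π : Fin k ⊕ Fin t ≃ Fin n) (R : Fin k → Fin n → K) :
    Matrix (Fin n) (Fin n) K :=
  Matrix.of fun r c => Sum.elim (fun ρ => R ρ c) (fun j => if c = π (Sum.inr j) then 1 else 0)
    (π.symm r)

theorem tab_det {k t : ℕ} {n : ℕ} (π : Fin k ⊕ Fin t ≃ Fin n) (R : Fin k → Fin n → K) :
    (tab π R).det = (Matrix.of fun ρ i => R ρ (π (Sum.inl i))).det := by
  classical
  rw [← Matrix.det_submatrix_equiv_self π (tab π R)]
  have h1 : (tab π R).submatrix π π = Matrix.fromBlocks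
      (Matrix.of fun ρ i => R ρ (π (Sum.inl i))) (Matrix.of fun ρ i => R ρ (π (Sum.inr i))) 0 1 := by
    ext r c
    rcases r with r | r <;> rcases c with c | c
    · simp [tab]
    · simp [tab]
    · simp [tab]
    · simp only [tab, Matrix.submatrix_apply, Matrix.of_apply, Equiv.symm_apply_apply,
        Sum.elim_inr, Matrix.fromBlocks_apply₂₂, Matrix.one_apply, EmbeddingLike.apply_eq_iff_eq,
        Sum.inr.injEq]
      by_cases h : c = r
      · rw [if_pos h, if_pos h.symm]
      · rw [if_neg h, if_neg fun h' => h h'.symm]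
  rw [h1, Matrix.det_fromBlocks_zero₂₁, Matrix.det_one, mul_one]

/-- an enumeration of the coordinates which begins with the given ones -/
theorem exists_enum {k t : ℕ} (J : Fin k → Fin (k + t)) (hJ : Function.Injective J) :
    ∃ π : Fin k ⊕ Fin t ≃ Fin (k + t), ∀ i, π (Sum.inl i) = J i := by
  classical
  have hc1 : Fintype.card (Set.range J) = k := by
    rw [Set.card_range_of_injective hJ, Fintype.card_fin]
  have hc : Fintype.card {x // ¬ x ∈ Set.range J} = t := by
    have h1 := Fintype.card_subtype_compl (fun x => x ∈ Set.range J)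
    have h2 : Fintype.card {x // x ∈ Set.range J} = k := hc1
    rw [Fintype.card_fin, h2] at h1
    omega
  have e1 : {x // ¬ x ∈ Set.range J} ≃ Fin t := Fintype.equivFinOfCardEq hc
  refine ⟨(Equiv.sumCongr (Equiv.ofInjective J hJ) e1.symm).trans
    (Equiv.sumCompl (fun x => x ∈ Set.range J)), fun i => ?_⟩
  simp

end tab

theorem abs : S_ABS := by
  classical
  intro F K _ _ _ A N s g q w G Fd hNC x hx hx1 hG P hFd R hR hRG hRF J hJ
  obtain ⟨c, hc⟩ := hx1
  obtain ⟨π, hπ⟩ := exists_enum J hJ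
  have hinl : ∀ ρ, (∀ j, ρ ≠ π (Sum.inr j)) → ∃ ρ', ρ = π (Sum.inl ρ') := by
    intro ρ hρ
    obtain ⟨y, rfl⟩ := π.surjective ρ
    rcases y with y | y
    · exact ⟨y, rfl⟩
    · exact absurd rfl (hρ y)
  have htab : ∀ ρ' b, tab π R (π (Sum.inl ρ')) b = R ρ' b := by
    intro ρ' b
    simp [tab]
  obtain ⟨m, ω, hω, h⟩ := absC G Fd A hNC x hx hG P (tab π R) (fun j => π (Sum.inr j))
    (fun j j' h => Sum.inr_injective (π.injective h)) (by
      intro ρ b
      obtain ⟨y, rfl⟩ := π.surjective ρ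
      rcases y with y | y
      · rw [htab]
        exact hR _ _
      · simp only [tab, Matrix.of_apply, Equiv.symm_apply_apply, Sum.elim_inr]
        split_ifs
        · exact A.one_mem
        · exact A.zero_mem) hFd (by
      intro ρ hρ j
      obtain ⟨ρ', rfl⟩ := hinl ρ hρ
      simp only [htab]
      exact hRG ρ' j) (by
      intro ρ hρ i j
      obtain ⟨ρ', rfl⟩ := hinl ρ hρ
      simp only [htab]
      exact hRF ρ' i j) c
  refine ⟨ω, hω, ?_⟩
  rw [hc, one_pow, one_mul, tab_det] at h
  simp only [hπ] at h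
  exact h

end Pool.Agent.Y785.FG
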